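import Pool.Agent.H84.GL.Targets2
import Pool.Agent.H22.LPP.Prob

open MeasureTheory ProbabilityTheory
open scoped ENNReal

namespace Pool.Agent.H95.GL

open Pool.Agent.H84.GL Pool.Agent.H99.NS

theorem pf_LT (h_LTQ : T_LTQ) (h_GGP : T_GGP) (h_TLB : T_TLB) (h_GET : T_GET) : D_LT := by
  intro q hq hq1
  obtain ⟨C1, c1, hC1, hc1, h1⟩ := h_LTQ q hq hq1
  obtain ⟨C2, hC2, h2⟩ := h_GGP q hq hq1
  have hsq0 : 0 < √q := Real.sqrt_pos.2 hq
  have hsq1 : √q < 1 := by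
    rw [Real.sqrt_lt' one_pos]; linarith
  have hmu : 0 < mu q := by
    unfold mu
    exact div_pos hsq0 (by linarith)
  have hsg : 0 < sg q := by
    unfold sg
    exact div_pos hsq0 (by linarith)
  have hlog : Real.log q < 0 := Real.log_neg hq hq1
  set c : ℝ := min (c1 * (1/6 : ℝ) ^ ((3:ℝ)/2)) (-Real.log q / (3 * √(mu q))) with hc
  have hcp : 0 < c := by
    apply lt_min
    · positivity
    · apply div_pos (by linarith)
      have := Real.sqrt_pos.2 hmu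
      positivity
  set X1 : ℝ := max (mu q * 256) (3 * C2) with hX1
  have hX1p : 0 < X1 := lt_of_lt_of_le (by positivity) (le_max_right _ _)
  refine ⟨C1 + 1 + Real.exp (c * X1 ^ ((3:ℝ)/2)), c, by positivity, hcp, ?_⟩
  intro u v huv hlt hD x hx
  obtain ⟨a, b, hv, ha, hb⟩ := Pool.Agent.H22.LPP.exists_qs huv
  set N : ℝ := (a : ℝ) + b with hN
  have hlen : len u v = N := by
    unfold len; rw [ha, hN]; push_cast; ring
  have hdsp : dsp u v = (a : ℝ) - b := by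
    unfold dsp; rw [hb]; push_cast; ring
  have hN1 : 1 ≤ N := by
    have : (1:ℤ) ≤ a + b := by omega
    rw [hN]; exact_mod_cast this
  have hN0 : 0 < N := by linarith
  have hpar : par q u v = pq q a b := by
    unfold par pq
    rw [ha, hb]; push_cast; ring
  rw [hlen, hpar]
  rw [hlen, hdsp] at hD
  have hparle : pq q a b ≤ mu q * N := by
    unfold pq
    have : 0 ≤ sg q / 2 * ((a:ℝ) - b) ^ 2 / ((a:ℝ) + b) := by positivity
    linarith
  -- small x
  have small : x ≤ X1 → PE q {ω | T ω u v ≤ pq q a b - x * N ^ ((1:ℝ)/3)} ≤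
      ENNReal.ofReal ((C1 + 1 + Real.exp (c * X1 ^ ((3:ℝ)/2))) * Real.exp (-(c * x ^ ((3:ℝ)/2)))) := by
    intro hxs
    refine le_trans prob_le_one ?_
    rw [← ENNReal.ofReal_one]
    apply ENNReal.ofReal_le_ofReal
    have h3 : x ^ ((3:ℝ)/2) ≤ X1 ^ ((3:ℝ)/2) := Real.rpow_le_rpow hx hxs (by norm_num)
    calc (1:ℝ) = Real.exp (c * X1 ^ ((3:ℝ)/2)) * Real.exp (-(c * X1 ^ ((3:ℝ)/2))) := by
          rw [← Real.exp_add]; simp
      _ ≤ Real.exp (c * X1 ^ ((3:ℝ)/2)) * Real.exp (-(c * x ^ ((3:ℝ)/2))) := by gcongr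
      _ ≤ _ := by gcongr; linarith
  by_cases hbig : mu q * N < x * N ^ ((1:ℝ)/3)
  · have hemp : {ω : Env | T ω u v ≤ pq q a b - x * N ^ ((1:ℝ)/3)} = ∅ := by
      ext ω
      simp only [Set.mem_ofPred_eq, Set.mem_empty_iff_false, iff_false, not_le]
      have h3 := Pool.Agent.H22.LPP.T_nonneg ω u v
      linarith
    rw [hemp, measure_empty]
    exact zero_le
  push Not at hbig
  have hN3 : 1 ≤ N ^ ((1:ℝ)/3) := Real.one_le_rpow hN1 (by norm_num)
  have e3 : N ^ ((1:ℝ)/3) * N ^ (-((1:ℝ)/3)) = 1 := by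
    rw [← Real.rpow_add hN0]; norm_num
  have hx23 : x ≤ mu q * N ^ ((2:ℝ)/3) := by
    have e6 : N * N ^ (-((1:ℝ)/3)) = N ^ ((2:ℝ)/3) := by
      nth_rewrite 1 [← Real.rpow_one N]
      rw [← Real.rpow_add hN0]; norm_num
    calc x = x * N ^ ((1:ℝ)/3) * N ^ (-((1:ℝ)/3)) := by rw [mul_assoc, e3, mul_one]
      _ ≤ mu q * N * N ^ (-((1:ℝ)/3)) := by gcongr
      _ = _ := by rw [mul_assoc, e6]
  by_cases hNs : N < 256
  · apply small
    calc x ≤ mu q * N ^ ((2:ℝ)/3) := hx23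
      _ ≤ mu q * N ^ (1:ℝ) := by
          apply mul_le_mul_of_nonneg_left _ hmu.le
          exact Real.rpow_le_rpow_of_exponent_le hN1 (by norm_num)
      _ ≤ mu q * 256 := by rw [Real.rpow_one]; gcongr
      _ ≤ X1 := le_max_left _ _
  push Not at hNs
  by_cases hC : x * N ^ ((1:ℝ)/3) / 3 < C2
  · apply small
    have : x ≤ x * N ^ ((1:ℝ)/3) := le_mul_of_one_le_right hx hN3
    have h4 : 3 * C2 ≤ X1 := le_max_right _ _
    linarith
  push Not at hC
  -- the cone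
  have hD4 : |(a:ℝ) - b| ^ 4 ≤ N ^ 3 := by
    have h3 : |(a:ℝ) - b| ^ 4 ≤ (N ^ ((3:ℝ)/4)) ^ 4 := by gcongr
    rw [← Real.rpow_natCast (N ^ ((3:ℝ)/4)) 4, ← Real.rpow_mul hN0.le] at h3
    have : (3:ℝ)/4 * ((4:ℕ):ℝ) = ((3:ℕ):ℝ) := by norm_num
    rw [this, Real.rpow_natCast] at h3
    exact h3
  have hDs : |(a:ℝ) - b| ≤ N / 4 := by
    by_contra hcon
    push Not at hcon
    have h3 : (N / 4) ^ 4 < |(a:ℝ) - b| ^ 4 := by
      apply pow_lt_pow_left₀ hcon (by positivity) (by norm_num)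
    have h4 : N ^ 3 ≤ (N / 4) ^ 4 := by
      have : (N / 4) ^ 4 = N ^ 3 * (N / 256) := by ring
      rw [this]
      apply le_mul_of_one_le_right (by positivity)
      linarith
    linarith
  rw [abs_le] at hDs
  have hab : a + 1 ≤ 3 * (b + 1) := by
    have : (a:ℝ) + 1 ≤ 3 * (b + 1) := by linarith [hDs.2]
    exact_mod_cast this
  have hba : b + 1 ≤ 3 * (a + 1) := by
    have : (b:ℝ) + 1 ≤ 3 * (a + 1) := by linarith [hDs.1]
    exact_mod_cast this
  have hgg := h2 a b (by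
    have : (1:ℝ) ≤ ((a + b : ℕ) : ℝ) := by push_cast; exact hN1
    exact_mod_cast this) hD4
  have hN2 : ((a:ℝ) + b + 2) ^ ((1:ℝ)/3) ≤ 2 * N ^ ((1:ℝ)/3) := by
    calc ((a:ℝ) + b + 2) ^ ((1:ℝ)/3) ≤ (8 * N) ^ ((1:ℝ)/3) := by
          apply Real.rpow_le_rpow (by positivity) _ (by norm_num)
          rw [← hN]; linarith
      _ = 2 * N ^ ((1:ℝ)/3) := by
          rw [Real.mul_rpow (by norm_num) hN0.le]
          congr 1
          rw [show (8:ℝ) = 2 ^ (3:ℝ) by norm_num, ← Real.rpow_mul (by norm_num)]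
          norm_num
  have hsub : {ω : Env | T ω u v ≤ pq q a b - x * N ^ ((1:ℝ)/3)} ⊆
      (fun ω : Env => arr ω u) ⁻¹' {W | (LB W a b : ℝ) ≤
        gg q (a+1 : ℕ) (b+1 : ℕ) - (x / 6) * ((a : ℝ) + b + 2) ^ ((1:ℝ)/3)} ∪
      (fun ω : Env => ω u) ⁻¹' {k : ℕ | x * N ^ ((1:ℝ)/3) / 3 ≤ (k : ℝ)} := by
    intro ω hω
    simp only [Set.mem_ofPred_eq] at hω
    by_cases hu : x * N ^ ((1:ℝ)/3) / 3 ≤ (ω u : ℝ)
    · right; exact hu
    · left
      push Not at hu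
      show (LB (arr ω u) a b : ℝ) ≤ _
      have h3 : T ω u v = (Tq ω u a b : ℝ) := by
        rw [hv]; exact Pool.Agent.H22.LPP.T_eq_Tq ω u a b
      have h4 : (LB (arr ω u) a b : ℝ) ≤ (Tq ω u a b : ℝ) + (ω u : ℝ) := by
        exact_mod_cast (h_TLB ω u a b).2
      rw [← h3] at h4
      have h5 : x / 6 * ((a:ℝ) + b + 2) ^ ((1:ℝ)/3) ≤ x * N ^ ((1:ℝ)/3) / 3 := by
        calc x / 6 * ((a:ℝ) + b + 2) ^ ((1:ℝ)/3) ≤ x / 6 * (2 * N ^ ((1:ℝ)/3)) := by gcongr
          _ = _ := by ring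
      have h6 : gg q ((a:ℝ) + 1) ((b:ℝ) + 1) = gg q (a+1 : ℕ) (b+1 : ℕ) := by push_cast; rfl
      rw [← h6]
      linarith
  refine le_trans (measure_mono hsub) (le_trans (measure_union_le _ _) ?_)
  have hm1 : PE q ((fun ω : Env => arr ω u) ⁻¹' {W | (LB W a b : ℝ) ≤
        gg q (a+1 : ℕ) (b+1 : ℕ) - (x / 6) * ((a : ℝ) + b + 2) ^ ((1:ℝ)/3)}) ≤
      ENNReal.ofReal (C1 * Real.exp (-(c * x ^ ((3:ℝ)/2)))) := by
    rw [← Measure.map_apply (measurable_arr u), map_arr]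
    · refine le_trans (h1 a b hab hba (x/6) (by positivity)) ?_
      apply ENNReal.ofReal_le_ofReal
      apply mul_le_mul_of_nonneg_left _ hC1.le
      apply Real.exp_le_exp.2
      apply neg_le_neg
      rw [show x / 6 = x * (1/6) by ring, Real.mul_rpow hx (by norm_num)]
      calc c * x ^ ((3:ℝ)/2) ≤ (c1 * (1/6 : ℝ) ^ ((3:ℝ)/2)) * x ^ ((3:ℝ)/2) := by
            gcongr; exact min_le_left _ _
        _ = _ := by ring
    · apply measurableSet_le
      · exact measurable_from_top.comp (measurable_LB a b)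
      · exact measurable_const
  have hm2 : PE q ((fun ω : Env => ω u) ⁻¹' {k : ℕ | x * N ^ ((1:ℝ)/3) / 3 ≤ (k : ℝ)}) ≤
      ENNReal.ofReal (Real.exp (-(c * x ^ ((3:ℝ)/2)))) := by
    have hmap : Measure.map (fun ω : Env => ω u) (PE q) = geo q := by
      unfold PE; exact Measure.infinitePi_map_eval (fun _ : Site => geo q) u
    rw [← Measure.map_apply (measurable_pi_apply u) (by trivial), hmap]
    refine le_trans (h_GET q _ hq hq1) ?_
    apply ENNReal.ofReal_le_ofReal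
    apply Real.exp_le_exp.2
    have hs : 0 < √(mu q) := Real.sqrt_pos.2 hmu
    have h3 : x ^ ((3:ℝ)/2) ≤ √(mu q) * (x * N ^ ((1:ℝ)/3)) := by
      rcases hx.eq_or_lt with hx0 | hx0
      · rw [← hx0, Real.zero_rpow (by norm_num)]; positivity
      have h4 : x ^ ((3:ℝ)/2) = x * √x := by
        rw [Real.sqrt_eq_rpow]
        nth_rewrite 2 [← Real.rpow_one x]
        rw [← Real.rpow_add hx0]; norm_num
      have h5 : √x ≤ √(mu q) * N ^ ((1:ℝ)/3) := by
        rw [Real.sqrt_le_left (by positivity), mul_pow, Real.sq_sqrt hmu.le]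
        have : (N ^ ((1:ℝ)/3)) ^ 2 = N ^ ((2:ℝ)/3) := by
          rw [← Real.rpow_natCast, ← Real.rpow_mul hN0.le]; norm_num
        rw [this]; exact hx23
      rw [h4]
      calc x * √x ≤ x * (√(mu q) * N ^ ((1:ℝ)/3)) := by gcongr
        _ = _ := by ring
    have h6 : c * x ^ ((3:ℝ)/2) ≤ -Real.log q / (3 * √(mu q)) * (√(mu q) * (x * N ^ ((1:ℝ)/3))) := by
      apply mul_le_mul (min_le_right _ _) h3 (by positivity)
      apply div_nonneg (by linarith) (by positivity)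
    have h7 : -Real.log q / (3 * √(mu q)) * (√(mu q) * (x * N ^ ((1:ℝ)/3))) =
        -(x * N ^ ((1:ℝ)/3) / 3 * Real.log q) := by
      field_simp
    linarith
  refine le_trans (add_le_add hm1 hm2) ?_
  rw [← ENNReal.ofReal_add (by positivity) (by positivity)]
  apply ENNReal.ofReal_le_ofReal
  have : 0 ≤ Real.exp (c * X1 ^ ((3:ℝ)/2)) * Real.exp (-(c * x ^ ((3:ℝ)/2))) := by positivity
  nlinarith

end Pool.Agent.H95.GL
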