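import Pool.Agent.H84.GL.Basic

open MeasureTheory ProbabilityTheory
open scoped ENNReal

namespace Pool.Agent.H95.GL

open Pool.Agent.H84.GL Pool.Agent.H99.NS

/-- The shape function is at most linear. -/
theorem gg_le (q x y : ℝ) (hq : 0 < q) (hq1 : q < 1) (hx : 0 ≤ x) (hy : 0 ≤ y) :
    gg q x y ≤ 2 / (1 - q) * (x + y) := by
  unfold gg
  have h1 : √(q * x * y) ≤ (x + y) / 2 := by
    rw [Real.sqrt_le_left (by positivity)]
    nlinarith [sq_nonneg (x - y), mul_nonneg hx hy, mul_nonneg (mul_nonneg hx hy) (sub_nonneg.2 hq1.le)]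
  have h2 : 0 < 1 - q := by linarith
  rw [div_mul_eq_mul_div]
  apply div_le_div_of_nonneg_right _ h2.le
  nlinarith

theorem pf_LTQ (h_LTP : T_LTP) : T_LTQ := by
  intro q hq hq1
  obtain ⟨C1, c1, M, θ₀, hC1, hc1, hM, hθ₀, h⟩ := h_LTP q hq hq1
  have hq2 : 0 < 1 - q := by linarith
  set C6 : ℝ := 2 / (1 - q) with hC6
  have hC6p : 0 < C6 := by positivity
  set ca : ℝ := c1 * M ^ (-((3:ℝ)/2)) with hca
  set cb : ℝ := c1 * θ₀ ^ 3 * C6 ^ (-((3:ℝ)/2)) with hcb
  have hcap : 0 < ca := by positivity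
  have hcbp : 0 < cb := by positivity
  refine ⟨max C1 1, min ca cb, by positivity, lt_min hcap hcbp, ?_⟩
  intro a b hab hba x hx
  set N : ℝ := (a : ℝ) + b + 2 with hN
  have hNp : 2 ≤ N := by
    have : (0:ℝ) ≤ a := Nat.cast_nonneg a
    have : (0:ℝ) ≤ b := Nat.cast_nonneg b
    linarith
  have hN0 : 0 < N := by linarith
  have hN3 : 0 < N ^ ((1:ℝ)/3) := by positivity
  have key : ∀ θ : ℝ, 0 < θ → θ ≤ θ₀ → M * N * θ ^ 2 ≤ x * N ^ ((1:ℝ)/3) →
      min ca cb * x ^ ((3:ℝ)/2) ≤ c1 * N * θ ^ 3 →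
      P2 q {W | (LB W a b : ℝ) ≤ gg q (a+1 : ℕ) (b+1 : ℕ) - x * N ^ ((1:ℝ)/3)} ≤
      ENNReal.ofReal (max C1 1 * Real.exp (-(min ca cb * x ^ ((3:ℝ)/2)))) := by
    intro θ h0 h1 h2 h3
    have h4 := h a b hab hba θ h0 h1
    refine le_trans (measure_mono ?_) (le_trans h4 ?_)
    · intro W hW
      simp only [Set.mem_setOf_eq] at hW ⊢
      rw [← hN]
      linarith
    · apply ENNReal.ofReal_le_ofReal
      apply mul_le_mul (le_max_left _ _) _ (Real.exp_pos _).le (by positivity)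
      apply Real.exp_le_exp.2
      rw [← hN]
      linarith
  rcases hx.eq_or_lt with hx0 | hx0
  · rw [← hx0]
    refine le_trans prob_le_one ?_
    rw [Real.zero_rpow (by norm_num), mul_zero, neg_zero, Real.exp_zero, mul_one]
    rw [← ENNReal.ofReal_one]
    exact ENNReal.ofReal_le_ofReal (le_max_right _ _)
  · set θ : ℝ := √(x / M) * N ^ (-((1:ℝ)/3)) with hθ
    have hθp : 0 < θ := by positivity
    have e1 : N ^ (-((1:ℝ)/3)) * N ^ (-((1:ℝ)/3)) = N ^ (-((2:ℝ)/3)) := by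
      rw [← Real.rpow_add hN0]; norm_num
    have e2 : N * N ^ (-((2:ℝ)/3)) = N ^ ((1:ℝ)/3) := by
      nth_rewrite 1 [← Real.rpow_one N]
      rw [← Real.rpow_add hN0]; norm_num
    have e3 : N ^ ((1:ℝ)/3) * N ^ (-((1:ℝ)/3)) = 1 := by
      rw [← Real.rpow_add hN0]; norm_num
    have hsq : √(x / M) ^ 2 = x / M := Real.sq_sqrt (by positivity)
    have e4 : M * N * θ ^ 2 = x * N ^ ((1:ℝ)/3) := by
      have : θ ^ 2 = x / M * N ^ (-((2:ℝ)/3)) := by
        rw [hθ, mul_pow, hsq, ← e1]; ring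
      rw [this]
      calc M * N * (x / M * N ^ (-((2:ℝ)/3))) = (M * (x / M)) * (N * N ^ (-((2:ℝ)/3))) := by ring
        _ = x * N ^ ((1:ℝ)/3) := by rw [e2, mul_div_cancel₀ _ hM.ne']
    have e5 : N * θ ^ 3 = M ^ (-((3:ℝ)/2)) * x ^ ((3:ℝ)/2) := by
      have h1 : N * θ ^ 3 = (x / M) * √(x / M) := by
        have : N * θ ^ 3 = (M * N * θ ^ 2) * θ / M := by field_simp
        rw [this, e4, hθ]
        calc x * N ^ ((1:ℝ)/3) * (√(x / M) * N ^ (-((1:ℝ)/3))) / M
            = (x / M) * √(x / M) * (N ^ ((1:ℝ)/3) * N ^ (-((1:ℝ)/3))) := by ring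
          _ = _ := by rw [e3, mul_one]
      rw [h1, Real.sqrt_eq_rpow]
      nth_rewrite 1 [← Real.rpow_one (x / M)]
      rw [← Real.rpow_add (by positivity), Real.div_rpow hx hM.le, Real.rpow_neg hM.le]
      norm_num
      ring
    by_cases hc : θ ≤ θ₀
    · apply key θ hθp hc e4.le
      calc min ca cb * x ^ ((3:ℝ)/2) ≤ ca * x ^ ((3:ℝ)/2) := by
            gcongr; exact min_le_left _ _
        _ = c1 * N * θ ^ 3 := by rw [mul_assoc c1 N, e5, hca]; ring
    · push Not at hc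
      by_cases hbig : x * N ^ ((1:ℝ)/3) ≤ C6 * N
      · apply key θ₀ hθ₀ le_rfl
        · rw [← e4]
          gcongr
        · have h1 : x ≤ C6 * N ^ ((2:ℝ)/3) := by
            have : x = x * N ^ ((1:ℝ)/3) * N ^ (-((1:ℝ)/3)) := by rw [mul_assoc, e3, mul_one]
            rw [this]
            have e6 : N * N ^ (-((1:ℝ)/3)) = N ^ ((2:ℝ)/3) := by
              nth_rewrite 1 [← Real.rpow_one N]
              rw [← Real.rpow_add hN0]; norm_num
            calc x * N ^ ((1:ℝ)/3) * N ^ (-((1:ℝ)/3)) ≤ C6 * N * N ^ (-((1:ℝ)/3)) := by gcongr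
              _ = C6 * N ^ ((2:ℝ)/3) := by rw [mul_assoc, e6]
          have h2 : x ^ ((3:ℝ)/2) ≤ C6 ^ ((3:ℝ)/2) * N := by
            calc x ^ ((3:ℝ)/2) ≤ (C6 * N ^ ((2:ℝ)/3)) ^ ((3:ℝ)/2) :=
                  Real.rpow_le_rpow hx h1 (by norm_num)
              _ = C6 ^ ((3:ℝ)/2) * N := by
                  rw [Real.mul_rpow hC6p.le (by positivity), ← Real.rpow_mul hN0.le]
                  norm_num
          calc min ca cb * x ^ ((3:ℝ)/2) ≤ cb * (C6 ^ ((3:ℝ)/2) * N) := by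
                apply mul_le_mul (min_le_right _ _) h2 (by positivity) hcbp.le
            _ = c1 * N * θ₀ ^ 3 := by
                rw [hcb]
                have : C6 ^ (-((3:ℝ)/2)) * C6 ^ ((3:ℝ)/2) = 1 := by
                  rw [← Real.rpow_add hC6p]; norm_num
                calc c1 * θ₀ ^ 3 * C6 ^ (-((3:ℝ)/2)) * (C6 ^ ((3:ℝ)/2) * N)
                    = c1 * θ₀ ^ 3 * N * (C6 ^ (-((3:ℝ)/2)) * C6 ^ ((3:ℝ)/2)) := by ring
                  _ = c1 * N * θ₀ ^ 3 := by rw [this]; ring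
      · push Not at hbig
        have hemp : {W : ℕ × ℕ → ℕ | (LB W a b : ℝ) ≤
            gg q (a+1 : ℕ) (b+1 : ℕ) - x * N ^ ((1:ℝ)/3)} = ∅ := by
          ext W
          simp only [Set.mem_setOf_eq, Set.mem_empty_iff_false, iff_false, not_le]
          have h1 := gg_le q (a+1 : ℕ) (b+1 : ℕ) hq hq1 (by positivity) (by positivity)
          have h2 : ((a+1 : ℕ) : ℝ) + ((b+1 : ℕ) : ℝ) = N := by push_cast; rw [hN]; ring
          rw [h2] at h1
          have h3 : (0:ℝ) ≤ (LB W a b : ℝ) := Nat.cast_nonneg _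
          linarith
        rw [hemp, measure_empty]
        exact zero_le

end Pool.Agent.H95.GL
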