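import Pool.Agent.H84.GL.Basic

open MeasureTheory ProbabilityTheory
open scoped ENNReal

namespace Pool.Agent.H95.GL

open Pool.Agent.H84.GL Pool.Agent.H99.NS

theorem AA_pos' (q : ℝ) (hq : 0 < q) (a b : ℕ) :
    0 < AA q (a+1 : ℕ) (b+1 : ℕ) := by
  unfold AA
  have h1 : 0 < √((a+1 : ℕ) : ℝ) := Real.sqrt_pos.2 (by positivity)
  have h2 : 0 < √(q * ((b+1 : ℕ) : ℝ)) := Real.sqrt_pos.2 (by positivity)
  positivity

theorem mp_PB_snd (α β q : ℝ) : MeasurePreserving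
    (fun x : (ℕ → ℕ) × (ℕ → ℕ) × (ℕ × ℕ → ℕ) => x.2) (PB α β q) ((P1 β).prod (P2 q)) := by
  unfold PB
  exact measurePreserving_snd

theorem mp_PB_PW (α β q : ℝ) : MeasurePreserving
    (fun x : (ℕ → ℕ) × (ℕ → ℕ) × (ℕ × ℕ → ℕ) => (x.1, x.2.2)) (PB α β q) (PW α q) := by
  unfold PB PW
  exact (MeasurePreserving.id (P1 α)).prod (measurePreserving_snd)

theorem pf_NEC (h_GLO : T_GLO) (h_GHL : T_GHL) (h_EXI : T_EXI) : T_NEC := by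
  intro q hq hq1
  obtain ⟨c1, θ₁, hc1, hθ₁, h1⟩ := h_GLO q hq hq1
  obtain ⟨C0, θ₂, hC0, hθ₂, h2⟩ := h_GHL q hq hq1
  set ε : ℝ := min 1 (√(c1 / (4 * C0))) with hε
  have hεp : 0 < ε := lt_min one_pos (Real.sqrt_pos.2 (by positivity))
  have hε1 : ε ≤ 1 := min_le_left _ _
  have hεs : C0 * ε ^ 2 ≤ c1 / 4 := by
    have h3 : ε ^ 2 ≤ c1 / (4 * C0) := by
      calc ε ^ 2 ≤ (√(c1 / (4 * C0))) ^ 2 := by
            gcongr; exact min_le_right _ _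
        _ = c1 / (4 * C0) := Real.sq_sqrt (by positivity)
    calc C0 * ε ^ 2 ≤ C0 * (c1 / (4 * C0)) := by gcongr
      _ = c1 / 4 := by field_simp
  refine ⟨ε * c1 / 4, min θ₁ θ₂, by positivity, lt_min hθ₁ hθ₂, ?_⟩
  intro a b hab hba θ hθ hθ0
  have hθa : θ ≤ θ₁ := le_trans hθ0 (min_le_left _ _)
  have hθb : θ ≤ θ₂ := le_trans hθ0 (min_le_right _ _)
  set M : ℝ := (a : ℝ) + b + 2 with hM
  have hMp : 0 < M := by positivity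
  set al : ℝ := AA q (a+1 : ℕ) (b+1 : ℕ) with hal
  have halp : 0 < al := AA_pos' q hq a b
  set z : ℝ := c1 * M * θ ^ 2 / 2 with hz
  set G : ℝ := gg q (a+1 : ℕ) (b+1 : ℕ) with hG
  have hexp1 : -((ε * θ) * z) + C0 * M * (ε * θ) ^ 3 ≤ -(ε * c1 / 4 * M * θ ^ 3) := by
    have : C0 * M * (ε * θ) ^ 3 = (C0 * ε ^ 2) * (ε * M * θ ^ 3) := by ring
    rw [this, hz]
    have h4 : (C0 * ε ^ 2) * (ε * M * θ ^ 3) ≤ (c1 / 4) * (ε * M * θ ^ 3) := by gcongr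
    linarith [h4]
  have hGh : ∀ α : ℝ, 0 < α → α ≤ al →
      PW α q {x | G + z ≤ (Gh x.1 x.2 0 a b : ℝ)} ≤ ex (-(ε * c1 / 4 * M * θ ^ 3)) := by
    intro α hα hαl
    refine le_trans (h2 a b hab hba α (ε * θ) z hα hαl (by positivity) ?_) ?_
    · calc ε * θ ≤ 1 * θ := by gcongr
        _ ≤ θ₂ := by rw [one_mul]; exact hθb
    · exact ex_mono hexp1
  have hmeas : MeasurableSet {x : (ℕ → ℕ) × (ℕ × ℕ → ℕ) | G + z ≤ (Gh x.1 x.2 0 a b : ℝ)} := by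
    apply measurableSet_le measurable_const
    exact measurable_from_top.comp (measurable_Gh 0 a b)
  have hmeasv : MeasurableSet {x : (ℕ → ℕ) × (ℕ × ℕ → ℕ) | (Gv x.1 x.2 0 a b : ℝ) < G + z} := by
    apply measurableSet_lt _ measurable_const
    exact measurable_from_top.comp (measurable_Gv 0 a b)
  have hal2 : al * Real.exp (-θ) ≤ al := by
    apply mul_le_of_le_one_right halp.le
    rw [Real.exp_le_one_iff]; linarith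
  have hB1 : PB (al * Real.exp (-θ)) (q / (al * Real.exp (-θ))) q
      {x | G + z ≤ (Gh x.1 x.2.2 0 a b : ℝ)} ≤ ex (-(ε * c1 / 4 * M * θ ^ 3)) := by
    have h3 := (mp_PB_PW (al * Real.exp (-θ)) (q / (al * Real.exp (-θ))) q).measure_preimage
      hmeas.nullMeasurableSet
    have h4 : (fun x : (ℕ → ℕ) × (ℕ → ℕ) × (ℕ × ℕ → ℕ) => (x.1, x.2.2)) ⁻¹'
      {x : (ℕ → ℕ) × (ℕ × ℕ → ℕ) | G + z ≤ (Gh x.1 x.2 0 a b : ℝ)} =
      {x | G + z ≤ (Gh x.1 x.2.2 0 a b : ℝ)} := rfl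
    rw [← h4, h3]
    exact hGh _ (by positivity) hal2
  have hB2 : PB al (q / (al * Real.exp (-θ))) q
      {x | G + z ≤ (Gh x.1 x.2.2 0 a b : ℝ)} ≤ ex (-(ε * c1 / 4 * M * θ ^ 3)) := by
    have h3 := (mp_PB_PW al (q / (al * Real.exp (-θ))) q).measure_preimage
      hmeas.nullMeasurableSet
    have h4 : (fun x : (ℕ → ℕ) × (ℕ → ℕ) × (ℕ × ℕ → ℕ) => (x.1, x.2.2)) ⁻¹'
      {x : (ℕ → ℕ) × (ℕ × ℕ → ℕ) | G + z ≤ (Gh x.1 x.2 0 a b : ℝ)} =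
      {x | G + z ≤ (Gh x.1 x.2.2 0 a b : ℝ)} := rfl
    rw [← h4, h3]
    exact hGh _ halp le_rfl
  have hB3 : PB al (q / (al * Real.exp (-θ))) q
      {x | (GB x.1 x.2.1 x.2.2 (a+1) (b+1) : ℝ) ≤ G + z} ≤ ex (-(ε * c1 / 4 * M * θ ^ 3)) := by
    have h3 := h1 (a+1) (b+1) (by omega) (by omega) hab hba θ 0 z hθ hθa (Or.inl rfl)
    rw [Real.exp_zero, mul_one, ← hal] at h3
    refine le_trans h3 (ex_mono ?_)
    have h5 : ((a+1 : ℕ) : ℝ) + ((b+1 : ℕ) : ℝ) = M := by rw [hM]; push_cast; ring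
    rw [h5, hz]
    have h6 : ε * c1 / 4 * M * θ ^ 3 ≤ c1 / 2 * M * θ ^ 3 := by
      have : ε * c1 / 4 ≤ c1 / 2 := by nlinarith
      gcongr
    linarith
  have hsub : {x : (ℕ → ℕ) × (ℕ → ℕ) × (ℕ × ℕ → ℕ) | Gv x.2.1 x.2.2 0 a b < Gh x.1 x.2.2 0 a b} ⊆
      {x | G + z ≤ (Gh x.1 x.2.2 0 a b : ℝ)} ∪
      (fun x : (ℕ → ℕ) × (ℕ → ℕ) × (ℕ × ℕ → ℕ) => x.2) ⁻¹'
        {x : (ℕ → ℕ) × (ℕ × ℕ → ℕ) | (Gv x.1 x.2 0 a b : ℝ) < G + z} := by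
    intro x hx
    simp only [Set.mem_ofPred_eq] at hx
    by_cases h : G + z ≤ (Gh x.1 x.2.2 0 a b : ℝ)
    · left; exact h
    · right
      push Not at h
      show (Gv x.2.1 x.2.2 0 a b : ℝ) < G + z
      have : (Gv x.2.1 x.2.2 0 a b : ℝ) < (Gh x.1 x.2.2 0 a b : ℝ) := by exact_mod_cast hx
      linarith
  have hsub2 : (fun x : (ℕ → ℕ) × (ℕ → ℕ) × (ℕ × ℕ → ℕ) => x.2) ⁻¹'
        {x : (ℕ → ℕ) × (ℕ × ℕ → ℕ) | (Gv x.1 x.2 0 a b : ℝ) < G + z} ⊆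
      {x | (GB x.1 x.2.1 x.2.2 (a+1) (b+1) : ℝ) ≤ G + z} ∪
      {x | G + z ≤ (Gh x.1 x.2.2 0 a b : ℝ)} := by
    intro x hx
    have hx' : (Gv x.2.1 x.2.2 0 a b : ℝ) < G + z := hx
    by_cases h : G + z ≤ (Gh x.1 x.2.2 0 a b : ℝ)
    · right; exact h
    · left
      push Not at h
      show (GB x.1 x.2.1 x.2.2 (a+1) (b+1) : ℝ) ≤ G + z
      rw [h_EXI, Nat.cast_max]
      exact max_le h.le hx'.le
  refine le_trans (measure_mono hsub) (le_trans (measure_union_le _ _) ?_)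
  have hB4 : PB (al * Real.exp (-θ)) (q / (al * Real.exp (-θ))) q
      ((fun x : (ℕ → ℕ) × (ℕ → ℕ) × (ℕ × ℕ → ℕ) => x.2) ⁻¹'
        {x : (ℕ → ℕ) × (ℕ × ℕ → ℕ) | (Gv x.1 x.2 0 a b : ℝ) < G + z}) ≤
      ex (-(ε * c1 / 4 * M * θ ^ 3)) + ex (-(ε * c1 / 4 * M * θ ^ 3)) := by
    rw [(mp_PB_snd (al * Real.exp (-θ)) (q / (al * Real.exp (-θ))) q).measure_preimage
      hmeasv.nullMeasurableSet]
    rw [← (mp_PB_snd al (q / (al * Real.exp (-θ))) q).measure_preimage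
      hmeasv.nullMeasurableSet]
    exact le_trans (measure_mono hsub2) (le_trans (measure_union_le _ _) (add_le_add hB3 hB2))
  calc _ ≤ ex (-(ε * c1 / 4 * M * θ ^ 3)) +
      (ex (-(ε * c1 / 4 * M * θ ^ 3)) + ex (-(ε * c1 / 4 * M * θ ^ 3))) := add_le_add hB1 hB4
    _ = 3 * ex (-(ε * c1 / 4 * M * θ ^ 3)) := by ring

end Pool.Agent.H95.GL
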